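import Pool.Agent.U10.Ord.Gal

/-!
In a pro-`q`-extension all the orders are congruent modulo `q`.
-/

set_option linter.unusedSectionVars false
set_option linter.style.haveILetI false

namespace Pool.Agent.U10.Ord

open Module IntermediateField Pool.Agent.U10.Sha

section gen

variable {G M : Type*} [Group G] [TopologicalSpace G] [AddCommGroup M] {a : G →* AddMonoid.End M}
  (L : LocData a) (S : Set ℕ)

theorem fx_cong (q : ℕ) [hq : Fact q.Prime] (N : Subgroup G) [hN : N.Normal] (e : ℕ)
    (he : N.index = q ^ e) (hfin : ord L S N ≠ 0) (H : Subgroup G) :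
    Nat.card (fx L S N H) ≡ ord L S N [MOD q] := by
  haveI : Finite (part S (L.Sh N)) := Nat.finite_of_card_ne_zero hfin
  let ρ : G →* (AddMonoid.End (part S (L.Sh N)))ˣ := (rep L S N).toHomUnits
  have hρ : ∀ (g : G) (x : part S (L.Sh N)), ((ρ g • x : part S (L.Sh N)) : L.Sh N) =
    L.cj' N g x.1 := fun g x => rfl
  let P : Subgroup (AddMonoid.End (part S (L.Sh N)))ˣ := H.map ρ
  have hP : IsPGroup q P := by
    rintro ⟨_, g, hg, rfl⟩
    refine ⟨e, Subtype.ext ?_⟩
    change (ρ g) ^ q ^ e = 1
    rw [← he, ← map_pow]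
    have h1 : g ^ N.index ∈ N := N.pow_index_mem g
    apply Units.ext
    change rep L S N (g ^ N.index) = 1
    ext x
    exact cj'_self L N _ h1 x.1
  have h1 := hP.card_modEq_card_fixedPoints (part S (L.Sh N))
  have h2 : Nat.card (MulAction.fixedPoints P (part S (L.Sh N))) = Nat.card (fx L S N H) := by
    refine Nat.card_congr
      { toFun := fun x => ⟨x.1.1, x.1.2, fun h hh => ?_⟩
        invFun := fun x => ⟨⟨x.1, x.2.1⟩, ?_⟩
        left_inv := fun x => rfl
        right_inv := fun x => rfl }
    · have h3 := x.2 ⟨ρ h, h, hh, rfl⟩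
      exact congrArg Subtype.val h3
    · rintro ⟨_, g, hg, rfl⟩
      exact Subtype.ext (x.2.2 g hg)
  rw [h2] at h1
  exact h1.symm

end gen

section field

variable {k A : Type} [Field k] [Field A] [Algebra k A] [IsGalois k A]
  {M : Type} [AddCommGroup M] {a : (A ≃ₐ[k] A) →* AddMonoid.End M}
  (L : LocData a)

theorem snum_pow {q n : ℕ} (hq : q.Prime) (h : SNum {q} n) : ∃ e, n = q ^ e :=
  ⟨_, Nat.eq_prime_pow_of_unique_prime_dvd h.1 (fun {d} hd hdn => h.2 d hd hdn)⟩

theorem ordF_cong (q : ℕ) (hq : q.Prime) {Ω : IntermediateField k A} [Normal k Ω]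
    (hΩ : Deg {q} Ω) (hfin : ∀ F ≤ Ω, FiniteDimensional k F → ordF L {q} F ≠ 0)
    {K : IntermediateField k A} (hK : K ≤ Ω) [FiniteDimensional k K] :
    ordF L {q} K ≡ ordF L {q} ⊥ [MOD q] := by
  haveI : Fact q.Prime := ⟨hq⟩
  haveI : FiniteDimensional k (normalClosure k K A) := inferInstance
  haveI : IsGalois k (normalClosure k K A) := inferInstance
  have hle : normalClosure k K A ≤ Ω := normalClosure_le_iff_of_normal.2 hK
  haveI hN : (normalClosure k K A).fixingSubgroup.Normal :=
    (InfiniteGalois.normal_iff_isGalois _).2 inferInstance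
  haveI hfi : (normalClosure k K A).fixingSubgroup.FiniteIndex := by
    refine ⟨?_⟩
    rw [← finrank_eq_fixingSubgroup_index]
    exact finrank_pos.ne'
  have hop : IsOpen ((normalClosure k K A).fixingSubgroup : Set (A ≃ₐ[k] A)) :=
    IntermediateField.fixingSubgroup_isOpen _
  have hS : SNum {q} (normalClosure k K A).fixingSubgroup.index := by
    rw [← finrank_eq_fixingSubgroup_index]
    exact hΩ _ hle inferInstance
  obtain ⟨e, he⟩ := snum_pow hq hS
  have h0 : ord L {q} (normalClosure k K A).fixingSubgroup ≠ 0 := hfin _ hle inferInstance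
  have h1 : ∀ K' : IntermediateField k A, K' ≤ normalClosure k K A →
      ordF L {q} K' ≡ ord L {q} (normalClosure k K A).fixingSubgroup [MOD q] := by
    intro K' hK'
    unfold ordF
    rw [ord_eq L {q} (IntermediateField.fixingSubgroup_antitone hK') hop hS]
    exact fx_cong L {q} q _ e he h0 _
  exact (h1 K (IntermediateField.le_normalClosure K)).trans (h1 ⊥ bot_le).symm

end field

end Pool.Agent.U10.Ord
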