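import Pool.Agent.U10.Ord.Gal
import Pool.Agent.U10.Sha.Fam
import Pool.Agent.U10.Sha.Ell

/-!
The points of an elliptic curve over the extensions of any field.
-/

set_option linter.unusedSectionVars false
set_option linter.style.haveILetI false

namespace Pool.Agent.U10.Ord

open Module IntermediateField Pool.Agent.U10.Sha

variable {k : Type} [Field k] (W : WeierstrassCurve k)

/-- The functor of points. -/
noncomputable def eFun : PF.Fun k where
  obj F := Pts W F
  grp F := instPts W F
  map φ := pm W φ
  map_map := pm_pm W
  map_id := pm_id W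

/-- The action on the points. -/
noncomputable def ptAct {L : Ext k} (σ : GalL L) : Pts W (Sep k) →+ Pts W (Sep k) :=
  pm W (AlgEquiv.toAlgHom (σ.1 : Sep k ≃ₐ[k] Sep k))

/-- The map of points given by the embedding. -/
noncomputable def locPt {V : ValuationSubring k} (ι : LocEmb V) :
    Pts W (Sep k) →+ Pts W (Sep (Cpl V)) := pm W (show Sep k →ₐ[k] Sep (Cpl V) from ι)

/-- The action of the Galois group of the completion on the points. -/
noncomputable def locAct {V : ValuationSubring k} (τ : LocAut V) :
    Pts W (Sep (Cpl V)) →+ Pts W (Sep (Cpl V)) :=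
  pm W ((AlgEquiv.toAlgHom (τ : Sep (Cpl V) ≃ₐ[Cpl V] Sep (Cpl V))).restrictScalars k)

end Pool.Agent.U10.Ord
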