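import Pool.Agent.U10.Ord.Grp
import Pool.Agent.U10.Mu.Lat
import Pool.Agent.U10.Sha.Gal

/-!
The orders for the finite extensions of a field in a Galois extension, and the smallest controlling
field.
-/

set_option linter.unusedSectionVars false
set_option linter.style.haveILetI false

namespace Pool.Agent.U10.Ord

open Module IntermediateField Pool.Agent.U10.Sha

/-- A cardinal measuring the size of a group of order `n` (`0`: infinite). -/
noncomputable def sz (n : ℕ) : Cardinal.{0} :=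
  if n = 0 then Cardinal.aleph0 else ((ArithmeticFunction.cardFactors n : ℕ) : Cardinal)

theorem sz_zero : sz 0 = Cardinal.aleph0 := if_pos rfl

theorem sz_ne {n : ℕ} (h : n ≠ 0) : sz n = ((ArithmeticFunction.cardFactors n : ℕ) : Cardinal) :=
  if_neg h

theorem sz_le (n : ℕ) : sz n ≤ Cardinal.aleph0 := by
  by_cases h : n = 0
  · rw [h, sz_zero]
  · rw [sz_ne h]
    exact Cardinal.natCast_lt_aleph0.le

theorem cf_mono {m n : ℕ} (hn : n ≠ 0) (h : m ∣ n) :
    ArithmeticFunction.cardFactors m ≤ ArithmeticFunction.cardFactors n := by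
  obtain ⟨c, rfl⟩ := h
  have hm : m ≠ 0 := left_ne_zero_of_mul hn
  have hc : c ≠ 0 := right_ne_zero_of_mul hn
  rw [ArithmeticFunction.cardFactors_mul hm hc]
  exact Nat.le_add_right _ _

theorem sz_mono {m n : ℕ} (h : m ∣ n) : sz m ≤ sz n := by
  by_cases hn : n = 0
  · rw [hn, sz_zero]
    exact sz_le m
  · have hm : m ≠ 0 := fun h0 => hn (by rw [h0] at h; exact zero_dvd_iff.1 h)
    rw [sz_ne hn, sz_ne hm]
    exact_mod_cast cf_mono hn h

theorem sz_eq {m n : ℕ} (h : m ∣ n) (hn : n ≠ 0) (he : sz n = sz m) : n = m := by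
  obtain ⟨c, rfl⟩ := h
  have hm : m ≠ 0 := left_ne_zero_of_mul hn
  have hc : c ≠ 0 := right_ne_zero_of_mul hn
  rw [sz_ne hn, sz_ne hm] at he
  have h1 : ArithmeticFunction.cardFactors (m * c) = ArithmeticFunction.cardFactors m := by
    exact_mod_cast he
  rw [ArithmeticFunction.cardFactors_mul hm hc] at h1
  have h2 : ArithmeticFunction.cardFactors c = 0 := by omega
  rw [ArithmeticFunction.cardFactors_eq_zero_iff_eq_zero_or_one] at h2
  rcases h2 with h2 | h2
  · exact absurd h2 hc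
  · rw [h2, mul_one]

theorem sz_super {m n m' n' : ℕ} (h : m * n ∣ m' * n') : sz m + sz n ≤ sz m' + sz n' := by
  by_cases h0 : m' * n' = 0
  · have h1 : sz m + sz n ≤ Cardinal.aleph0 := by
      rw [← Cardinal.aleph0_add_aleph0]
      exact add_le_add (sz_le m) (sz_le n)
    refine h1.trans ?_
    rcases mul_eq_zero.1 h0 with h2 | h2
    · rw [h2, sz_zero]
      exact le_self_add
    · rw [h2, sz_zero]
      exact le_add_self
  · have h1 : m * n ≠ 0 := fun h2 => h0 (by rw [h2] at h; exact zero_dvd_iff.1 h)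
    have h3 := cf_mono h0 h
    rw [ArithmeticFunction.cardFactors_mul (left_ne_zero_of_mul h1) (right_ne_zero_of_mul h1),
      ArithmeticFunction.cardFactors_mul (left_ne_zero_of_mul h0) (right_ne_zero_of_mul h0)] at h3
    rw [sz_ne (left_ne_zero_of_mul h1), sz_ne (right_ne_zero_of_mul h1),
      sz_ne (left_ne_zero_of_mul h0), sz_ne (right_ne_zero_of_mul h0)]
    exact_mod_cast h3

theorem sz_bound {n c : ℕ} (hn : n ≠ 0) (h : n ≤ c) : sz n ≤ (c : Cardinal) := by
  rw [sz_ne hn]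
  have h1 : ArithmeticFunction.cardFactors n ≤ n := by
    have h2 : 2 ^ (ArithmeticFunction.cardFactors n) ≤ n := by
      rw [ArithmeticFunction.cardFactors_apply]
      conv_rhs => rw [← Nat.prod_primeFactorsList hn]
      exact List.pow_card_le_prod _ _
        (fun q hq => (Nat.prime_of_mem_primeFactorsList hq).two_le)
    exact (Nat.lt_two_pow_self).le.trans h2
  exact_mod_cast h1.trans h

variable {k A : Type} [Field k] [Field A] [Algebra k A] [IsGalois k A]
  {M : Type} [AddCommGroup M] {a : (A ≃ₐ[k] A) →* AddMonoid.End M}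
  (L : LocData a) (S : Set ℕ)

/-- The order for the intermediate field `K`. -/
noncomputable def ordF (K : IntermediateField k A) : ℕ := ord L S K.fixingSubgroup

/-- The degrees of the finite extensions in `Ω` are products of primes in `S`. -/
def Deg (Ω : IntermediateField k A) : Prop :=
  ∀ F ≤ Ω, FiniteDimensional k F → SNum S (finrank k F)

/-- `K₁` controls the orders over all finite extensions of `k` in `Ω`. -/
def Ctl (Ω K₁ : IntermediateField k A) : Prop :=
  ∀ K ≤ Ω, FiniteDimensional k K → ordF L S K = ordF L S (K ⊓ K₁)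

variable {S} in
theorem exists_normal' {Ω : IntermediateField k A} [Normal k Ω] (hΩ : Deg S Ω)
    {K : IntermediateField k A} (hK : K ≤ Ω) [FiniteDimensional k K] :
    ∃ N : Subgroup (A ≃ₐ[k] A), N.Normal ∧ N.FiniteIndex ∧ IsOpen (N : Set (A ≃ₐ[k] A)) ∧
      SNum S N.index ∧ N ≤ K.fixingSubgroup := by
  haveI : FiniteDimensional k (normalClosure k K A) := inferInstance
  refine ⟨(normalClosure k K A).fixingSubgroup, ?_, ?_, ?_, ?_, ?_⟩
  · haveI : IsGalois k (normalClosure k K A) := inferInstance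
    exact (InfiniteGalois.normal_iff_isGalois _).2 inferInstance
  · refine ⟨?_⟩
    rw [← finrank_eq_fixingSubgroup_index]
    exact finrank_pos.ne'
  · exact IntermediateField.fixingSubgroup_isOpen _
  · rw [← finrank_eq_fixingSubgroup_index]
    exact hΩ _ (normalClosure_le_iff_of_normal.2 hK) inferInstance
  · exact IntermediateField.fixingSubgroup_antitone (IntermediateField.le_normalClosure K)

variable {S} {Ω : IntermediateField k A} [Normal k Ω] (hΩ : Deg S Ω)

include hΩ

theorem ordF_super {K K' : IntermediateField k A} (hK : K ≤ Ω) (hK' : K' ≤ Ω)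
    [FiniteDimensional k K] [FiniteDimensional k K'] :
    ordF L S K * ordF L S K' ∣ ordF L S (K ⊔ K') * ordF L S (K ⊓ K') := by
  obtain ⟨N, h1, h2, h3, h5, h4⟩ := exists_normal' hΩ (sup_le hK hK')
  unfold ordF
  rw [fix_inf K K', fixingSubgroup_sup]
  rw [fixingSubgroup_sup] at h4
  exact ord_super L S N h3 h5 (h4.trans inf_le_left) (h4.trans inf_le_right)

theorem ordF_mono {K K' : IntermediateField k A} [FiniteDimensional k K'] (h : K ≤ K')
    (hK' : K' ≤ Ω) : ordF L S K ∣ ordF L S K' := by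
  obtain ⟨N, h1, h2, h3, h5, h4⟩ := exists_normal' hΩ hK'
  exact ord_anti L S N h3 h5 h4 (IntermediateField.fixingSubgroup_antitone h)

theorem ordF_map (K : IntermediateField k A) [FiniteDimensional k K] (hK : K ≤ Ω)
    (g : A ≃ₐ[k] A) (hg : K.map g.toAlgHom ≤ Ω) :
    ordF L S K ∣ ordF L S (K.map g.toAlgHom) := by
  haveI : FiniteDimensional k (K.map g.toAlgHom) := inferInstance
  obtain ⟨N, h1, h2, h3, h6, h4⟩ := exists_normal' hΩ (sup_le hK hg)
  rw [fixingSubgroup_sup] at h4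
  apply ord_conj L S N h3 h6 (h4.trans inf_le_left) (h4.trans inf_le_right) g
  intro σ hσ
  rw [IntermediateField.mem_fixingSubgroup_iff] at hσ ⊢
  intro x hx
  have h5 := hσ (g x) ⟨x, hx, rfl⟩
  change g⁻¹ (σ (g x)) = x
  rw [h5]
  exact AlgEquiv.symm_apply_apply g x

theorem controllingOrd (m : ℕ)
    (hm : ∀ K ≤ Ω, FiniteDimensional k K → ordF L S K ≠ 0 ∧ ordF L S K ≤ m) :
    ∃ K₀ ≤ Ω, FiniteDimensional k K₀ ∧ Ctl L S Ω K₀ ∧
      (∀ K₁ ≤ Ω, FiniteDimensional k K₁ → Ctl L S Ω K₁ → K₀ ≤ K₁) ∧ Normal k K₀ := by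
  obtain ⟨K₀, h1, h2, h3, h4, h5⟩ := Pool.Agent.U10.Mu.controlling Ω (fun K => sz (ordF L S K))
    (fun K K' hK hK' _ _ => sz_super (ordF_super L hΩ hK hK'))
    (fun K K' h hK' _ => sz_mono (ordF_mono L hΩ h hK'))
    (fun K hK _ g hg => sz_mono (ordF_map L hΩ K hK g hg)) m
    (fun K hK hf => sz_bound (hm K hK hf).1 (hm K hK hf).2)
  refine ⟨K₀, h1, h2, ?_, ?_, h5 inferInstance⟩
  · intro K hK hf
    exact sz_eq (ordF_mono L hΩ inf_le_left hK) (hm K hK hf).1 (h3 K hK hf)
  · intro K₁ hK₁ hf₁ h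
    exact h4 K₁ hK₁ hf₁ (fun K hK hf => congrArg sz (h K hK hf))

theorem bounded_iffOrd :
    (∃ m : ℕ, ∀ K ≤ Ω, FiniteDimensional k K → ordF L S K ≠ 0 ∧ ordF L S K ≤ m) ↔
      ∃ K₁ ≤ Ω, FiniteDimensional k K₁ ∧ ordF L S K₁ ≠ 0 ∧ Ctl L S Ω K₁ := by
  constructor
  · rintro ⟨m, hm⟩
    obtain ⟨K₀, h1, h2, h3, -⟩ := controllingOrd L hΩ m hm
    exact ⟨K₀, h1, h2, (hm K₀ h1 h2).1, h3⟩
  · rintro ⟨K₁, h1, h2, h3, h4⟩
    refine ⟨ordF L S K₁, fun K hK hKf => ?_⟩
    have h5 : ordF L S K ∣ ordF L S K₁ := by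
      rw [h4 K hK hKf]
      exact ordF_mono L hΩ inf_le_right h1
    exact ⟨fun h0 => h3 (by rw [h0] at h5; exact zero_dvd_iff.1 h5),
      Nat.le_of_dvd (Nat.pos_of_ne_zero h3) h5⟩

end Pool.Agent.U10.Ord
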