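import Pool.Agent.U10.Ord.Fld

/-!
The Galois group of the smallest controlling field acts faithfully.
-/

set_option linter.unusedSectionVars false
set_option linter.style.haveILetI false

namespace Pool.Agent.U10.Ord

open Module IntermediateField Pool.Agent.U10.Sha

section gen

variable {G M : Type*} [Group G] [TopologicalSpace G] [AddCommGroup M] {a : G →* AddMonoid.End M}
  (L : LocData a) (S : Set ℕ)

/-- The action on the part prime to `S`. -/
noncomputable def rep (N : Subgroup G) [hN : N.Normal] :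
    G →* AddMonoid.End (part S (L.Sh N)) where
  toFun g :=
    { toFun := fun x => ⟨L.cj' N g x.1, part_map (X := L.Sh N) (Y := L.Sh N) (L.cj' N g) x.2⟩
      map_zero' := Subtype.ext (map_zero (L.cj' N g))
      map_add' := fun x y => Subtype.ext (map_add (L.cj' N g) x.1 y.1) }
  map_one' := by
    ext x
    exact congrArg Subtype.val (Subtype.ext (cj'_one L N x.1) :
      (⟨L.cj' N 1 x.1, part_map (X := L.Sh N) (Y := L.Sh N) (L.cj' N 1) x.2⟩ :
        part S (L.Sh N)) = x)
  map_mul' g h := by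
    ext x
    exact cj'_mul L N g h x.1

theorem rep_apply (N : Subgroup G) [hN : N.Normal] (g : G) (x : part S (L.Sh N)) :
    ((rep L S N g x : part S (L.Sh N)) : L.Sh N) = L.cj' N g x.1 := rfl

theorem rep_one_iff (N : Subgroup G) [hN : N.Normal] (g : G) :
    rep L S N g = 1 ↔ fx L S N (N ⊔ Subgroup.zpowers g) = part S (L.Sh N) := by
  constructor
  · intro h
    apply le_antisymm (fun x hx => hx.1)
    intro x hx
    refine ⟨hx, ?_⟩
    have h0 : L.cj' N g x = x := by
      have h1 := congrArg (fun e : AddMonoid.End (part S (L.Sh N)) => ((e ⟨x, hx⟩ :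
        part S (L.Sh N)) : L.Sh N)) h
      exact h1
    let T : Subgroup G :=
      { carrier := {g | L.cj' N g x = x}
        mul_mem' := by
          intro g h hg hh
          change L.cj' N (g * h) x = x
          rw [cj'_mul, hh, hg]
        one_mem' := cj'_one L N _
        inv_mem' := by
          intro g hg
          change L.cj' N g⁻¹ x = x
          have h2 := cj'_mul L N g⁻¹ g x
          rw [inv_mul_cancel, cj'_one, hg] at h2
          exact h2.symm }
    have h1 : N ⊔ Subgroup.zpowers g ≤ T :=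
      sup_le (fun h hh => cj'_self L N h hh x) ((Subgroup.zpowers_le (g := g)).2 h0)
    exact fun h hh => h1 hh
  · intro h
    ext x
    have hx : (x : L.Sh N) ∈ fx L S N (N ⊔ Subgroup.zpowers g) := by
      rw [h]
      exact x.2
    exact hx.2 g (Subgroup.mem_sup_right (Subgroup.mem_zpowers g))

end gen

section field

variable {k A : Type} [Field k] [Field A] [Algebra k A] [IsGalois k A]
  {M : Type} [AddCommGroup M] {a : (A ≃ₐ[k] A) →* AddMonoid.End M}
  (L : LocData a) {S : Set ℕ} {Ω : IntermediateField k A} [Normal k Ω] (hΩ : Deg S Ω)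

include hΩ

theorem gal_embedOrd {K₀ : IntermediateField k A} (h0 : K₀ ≤ Ω) [FiniteDimensional k K₀]
    [Normal k K₀] (hfin : ordF L S K₀ ≠ 0) (hc : Ctl L S Ω K₀)
    (hmin : ∀ K₁ ≤ Ω, FiniteDimensional k K₁ → Ctl L S Ω K₁ → K₀ ≤ K₁) :
    ∃ φ : (K₀ ≃ₐ[k] K₀) →* (AddMonoid.End (part S (L.Sh K₀.fixingSubgroup)))ˣ,
      Function.Injective φ := by
  haveI : IsGalois k K₀ := IsGalois.mk
  haveI hN : K₀.fixingSubgroup.Normal := (InfiniteGalois.normal_iff_isGalois _).2 inferInstance
  haveI hfi : K₀.fixingSubgroup.FiniteIndex := by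
    refine ⟨?_⟩
    rw [← finrank_eq_fixingSubgroup_index]
    exact finrank_pos.ne'
  have hop : IsOpen (K₀.fixingSubgroup : Set (A ≃ₐ[k] A)) :=
    IntermediateField.fixingSubgroup_isOpen _
  have hS : SNum S K₀.fixingSubgroup.index := by
    rw [← finrank_eq_fixingSubgroup_index]
    exact hΩ K₀ h0 inferInstance
  let φ : (A ≃ₐ[k] A) →* (AddMonoid.End (part S (L.Sh K₀.fixingSubgroup)))ˣ :=
    (rep L S K₀.fixingSubgroup).toHomUnits
  have hφ : φ.ker = K₀.fixingSubgroup := by
    ext g
    have h1 : g ∈ φ.ker ↔ rep L S K₀.fixingSubgroup g = 1 := by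
      rw [MonoidHom.mem_ker]
      constructor
      · intro h
        exact congrArg Units.val h
      · intro h
        exact Units.ext h
    rw [h1, rep_one_iff]
    constructor
    · intro h
      set H := K₀.fixingSubgroup ⊔ Subgroup.zpowers g with hH
      have hopH : IsOpen (H : Set (A ≃ₐ[k] A)) := Subgroup.isOpen_mono le_sup_left hop
      have h2 : (fixedField H).fixingSubgroup = H := fix_open H hopH
      have h3 : fixedField H ≤ K₀ := by
        conv_rhs => rw [← InfiniteGalois.fixedField_fixingSubgroup K₀]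
        exact IntermediateField.fixedField_antitone le_sup_left
      haveI : FiniteDimensional k (fixedField H) := fd_of_le h3
      have h4 : ordF L S (fixedField H) = ordF L S K₀ := by
        unfold ordF
        rw [h2, ord_eq L S (le_sup_left : K₀.fixingSubgroup ≤ H) hop hS, h]
        rfl
      have h5 : Ctl L S Ω (fixedField H) := by
        intro K hK hKf
        rw [hc K hK hKf]
        haveI : FiniteDimensional k (K ⊓ K₀ : IntermediateField k A) := fd_of_le inf_le_left
        have hKΩ : K ⊓ K₀ ≤ Ω := inf_le_left.trans hK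
        have hHΩ : fixedField H ≤ Ω := h3.trans h0
        have h8 : (K ⊓ K₀) ⊓ fixedField H = K ⊓ fixedField H := by
          rw [inf_assoc, inf_eq_right.2 h3]
        apply Nat.dvd_antisymm
        · have h6 := ordF_super L hΩ hKΩ hHΩ
          have h7 : ordF L S ((K ⊓ K₀) ⊔ fixedField H) ∣ ordF L S K₀ :=
            ordF_mono L hΩ (sup_le inf_le_right h3) h0
          rw [h4, h8] at h6
          have h9 := h6.trans (Nat.mul_dvd_mul_right h7 _)
          rw [mul_comm] at h9
          exact Nat.dvd_of_mul_dvd_mul_left (Nat.pos_of_ne_zero hfin) h9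
        · exact ordF_mono L hΩ (inf_le_inf_left K h3) hKΩ
      have h6 := hmin _ (h3.trans h0) inferInstance h5
      have h7 := IntermediateField.fixingSubgroup_antitone h6
      rw [h2] at h7
      exact h7 (Subgroup.mem_sup_right (Subgroup.mem_zpowers g))
    · intro hg
      have h2 : K₀.fixingSubgroup ⊔ Subgroup.zpowers g = K₀.fixingSubgroup :=
        sup_eq_left.2 ((Subgroup.zpowers_le (g := g)).2 hg)
      rw [h2]
      exact le_antisymm (fun x hx => hx.1) (fun x hx => ⟨hx, fun h hh => cj'_self L _ h hh x⟩)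
  have hker : (AlgEquiv.restrictNormalHom K₀ : (A ≃ₐ[k] A) →* (K₀ ≃ₐ[k] K₀)).ker =
      K₀.fixingSubgroup := IntermediateField.restrictNormalHom_ker K₀
  have hsur : Function.Surjective
      (AlgEquiv.restrictNormalHom K₀ : (A ≃ₐ[k] A) →* (K₀ ≃ₐ[k] K₀)) :=
    AlgEquiv.restrictNormalHom_surjective A
  refine ⟨MonoidHom.liftOfSurjective _ hsur ⟨φ, by rw [hker, hφ]⟩, ?_⟩
  rw [injective_iff_map_eq_one]
  intro y hy
  obtain ⟨g, rfl⟩ := hsur y
  have h1 : MonoidHom.liftOfSurjective _ hsur ⟨φ, by rw [hker, hφ]⟩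
    (AlgEquiv.restrictNormalHom K₀ g) = φ g :=
    MonoidHom.liftOfRightInverse_comp_apply _ _ _ _ g
  rw [h1] at hy
  have h2 : g ∈ φ.ker := hy
  rw [hφ, ← hker] at h2
  exact h2

theorem coprimeOrd {K₀ : IntermediateField k A} (hf : FiniteDimensional k K₀)
    (hc : Ctl L S Ω K₀) (K : IntermediateField k A) (hK : K ≤ Ω)
    (hKf : FiniteDimensional k K) (hcop : Nat.Coprime (finrank k K) (finrank k K₀)) :
    ordF L S K = ordF L S ⊥ := by
  rw [hc K hK hKf]
  have h1 : K ⊓ K₀ = ⊥ := by
    have h2 : finrank k (K ⊓ K₀ : IntermediateField k A) ∣ finrank k K :=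
      IntermediateField.finrank_dvd_of_le_right inf_le_left
    have h3 : finrank k (K ⊓ K₀ : IntermediateField k A) ∣ finrank k K₀ :=
      IntermediateField.finrank_dvd_of_le_right inf_le_right
    have h4 := Nat.dvd_gcd h2 h3
    rw [hcop] at h4
    exact IntermediateField.finrank_eq_one_iff.1 (Nat.dvd_one.1 h4)
  rw [h1]

/-- The smallest controlling field. -/
theorem smallestOrd (m : ℕ)
    (hm : ∀ K ≤ Ω, FiniteDimensional k K → ordF L S K ≠ 0 ∧ ordF L S K ≤ m) :
    ∃ K₀ ≤ Ω, FiniteDimensional k K₀ ∧ Ctl L S Ω K₀ ∧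
      (∀ K₁ ≤ Ω, FiniteDimensional k K₁ → Ctl L S Ω K₁ → K₀ ≤ K₁) ∧ IsGalois k K₀ ∧
      (∀ K ≤ Ω, FiniteDimensional k K → Nat.Coprime (finrank k K) (finrank k K₀) →
        ordF L S K = ordF L S ⊥) ∧
      ∃ φ : (K₀ ≃ₐ[k] K₀) →* (AddMonoid.End (part S (L.Sh K₀.fixingSubgroup)))ˣ,
        Function.Injective φ := by
  obtain ⟨K₀, h1, h2, h3, h4, h5⟩ := controllingOrd L hΩ m hm
  refine ⟨K₀, h1, h2, h3, h4, IsGalois.mk,
    fun K hK hKf hc => coprimeOrd L hΩ h2 h3 K hK hKf hc, ?_⟩
  exact gal_embedOrd L hΩ h1 (hm K₀ h1 h2).1 h3 h4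

end field

end Pool.Agent.U10.Ord
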