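import Pool.Agent.U10.Sha.Tate

/-!
The orders of the parts of order prime to the degrees of the groups of classes.
-/

set_option linter.unusedSectionVars false
set_option linter.style.haveILetI false

namespace Pool.Agent.U10.Ord

open Pool.Agent.U10.Sha

/-- The positive numbers which are products of primes in `S`. -/
def SNum (S : Set ℕ) (n : ℕ) : Prop := n ≠ 0 ∧ ∀ q : ℕ, q.Prime → q ∣ n → q ∈ S

/-- The positive numbers which are products of primes outside `S`. -/
def PrimeTo (S : Set ℕ) (n : ℕ) : Prop := n ≠ 0 ∧ ∀ q : ℕ, q.Prime → q ∣ n → q ∉ S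

theorem primeTo_mul {S : Set ℕ} {m n : ℕ} (hm : PrimeTo S m) (hn : PrimeTo S n) : PrimeTo S (m * n) :=
  ⟨mul_ne_zero hm.1 hn.1, fun q hq h => (hq.dvd_mul.1 h).elim (hm.2 q hq) (hn.2 q hq)⟩

theorem primeTo_one (S : Set ℕ) : PrimeTo S 1 :=
  ⟨one_ne_zero, fun _ hq h => absurd (Nat.dvd_one.1 h) hq.one_lt.ne'⟩

theorem cop {S : Set ℕ} {m n : ℕ} (hm : SNum S m) (hn : PrimeTo S n) : Nat.Coprime m n := by
  rw [Nat.coprime_iff_gcd_eq_one]
  by_contra h
  obtain ⟨q, hq, hd⟩ := Nat.exists_prime_and_dvd h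
  exact hn.2 q hq (hd.trans (Nat.gcd_dvd_right m n)) (hm.2 q hq (hd.trans (Nat.gcd_dvd_left m n)))

theorem SNum.dvd {S : Set ℕ} {m n : ℕ} (hm : SNum S m) (h : n ∣ m) : SNum S n :=
  ⟨fun h0 => hm.1 (by rw [h0] at h; exact zero_dvd_iff.1 h), fun q hq hd => hm.2 q hq (hd.trans h)⟩

/-- The subgroup of the elements whose order is a product of primes outside `S`. -/
def part (S : Set ℕ) (X : Type*) [AddCommGroup X] : AddSubgroup X where
  carrier := {x | ∃ n : ℕ, PrimeTo S n ∧ n • x = 0}
  add_mem' := by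
    rintro x y ⟨m, hm, hx⟩ ⟨n, hn, hy⟩
    refine ⟨m * n, primeTo_mul hm hn, ?_⟩
    rw [smul_add, mul_comm, mul_smul, hx, smul_zero, mul_comm, mul_smul, hy, smul_zero, add_zero]
  zero_mem' := ⟨1, primeTo_one S, smul_zero _⟩
  neg_mem' := by
    rintro x ⟨m, hm, hx⟩
    exact ⟨m, hm, by rw [smul_neg, hx, neg_zero]⟩

theorem part_zero {S : Set ℕ} {X : Type*} [AddCommGroup X] {x : X} (hx : x ∈ part S X) {m : ℕ}
    (hm : SNum S m) (h : m • x = 0) : x = 0 := by
  obtain ⟨n, hn, hx⟩ := hx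
  have h1 : (Nat.gcd m n) • x = 0 := by
    have h2 : ((Nat.gcd m n : ℕ) : ℤ) • x = 0 := by
      rw [Nat.gcd_eq_gcd_ab, add_smul, mul_comm, mul_smul, mul_comm (n : ℤ), mul_smul, natCast_zsmul,
        natCast_zsmul, h, hx, smul_zero, smul_zero, add_zero]
    rwa [natCast_zsmul] at h2
  rw [cop hm hn, one_smul] at h1
  exact h1

theorem part_div {S : Set ℕ} {X : Type*} [AddCommGroup X] {x : X} (hx : x ∈ part S X) {m : ℕ}
    (hm : SNum S m) : ∃ u : ℤ, u • m • x = x := by
  obtain ⟨n, hn, hx⟩ := hx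
  refine ⟨Nat.gcdA m n, ?_⟩
  have h1 : ((Nat.gcd m n : ℕ) : ℤ) • x = x := by
    rw [cop hm hn, Nat.cast_one, one_smul]
  rw [Nat.gcd_eq_gcd_ab, add_smul, mul_comm, mul_smul, mul_comm (n : ℤ), mul_smul, natCast_zsmul,
    natCast_zsmul, hx, smul_zero, add_zero] at h1
  exact h1

theorem part_map {S : Set ℕ} {X Y : Type*} [AddCommGroup X] [AddCommGroup Y] (f : X →+ Y) {x : X}
    (hx : x ∈ part S X) : f x ∈ part S Y := by
  obtain ⟨n, hn, h⟩ := hx
  exact ⟨n, hn, by rw [← map_nsmul, h, map_zero]⟩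

theorem card_mul {X : Type*} [AddCommGroup X] (A B : AddSubgroup X) :
    Nat.card A * Nat.card B = Nat.card (A ⊔ B : AddSubgroup X) * Nat.card (A ⊓ B : AddSubgroup X) := by
  have h1 : Nat.card (A ⊓ B : AddSubgroup X) * B.relIndex A = Nat.card A := by
    rw [← AddSubgroup.inf_relIndex_left, ← AddSubgroup.relIndex_bot_left,
      ← AddSubgroup.relIndex_bot_left]
    exact AddSubgroup.relIndex_mul_relIndex _ _ _ bot_le inf_le_left
  have h2 : Nat.card B * B.relIndex A = Nat.card (A ⊔ B : AddSubgroup X) := by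
    rw [← AddSubgroup.relIndex_sup_right A B, ← AddSubgroup.relIndex_bot_left,
      ← AddSubgroup.relIndex_bot_left]
    exact AddSubgroup.relIndex_mul_relIndex _ _ _ bot_le le_sup_right
  rw [← h1, ← h2]
  ring

theorem card_dvd {X : Type*} [AddCommGroup X] {A B C : AddSubgroup X} (hA : A ≤ C) (hB : B ≤ C) :
    Nat.card A * Nat.card B ∣ Nat.card C * Nat.card (A ⊓ B : AddSubgroup X) := by
  rw [card_mul]
  exact Nat.mul_dvd_mul_right (AddSubgroup.card_dvd_of_le (sup_le hA hB)) _

section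

variable {G M : Type*} [Group G] [TopologicalSpace G] [AddCommGroup M] {a : G →* AddMonoid.End M}
  (L : LocData a) (S : Set ℕ)

/-- The order (`0` if infinite) of the part prime to `S` of the group of classes. -/
noncomputable def ord (H : Subgroup G) : ℕ := Nat.card (part S (L.Sh H))

/-- The fixed elements. -/
def fx (N : Subgroup G) [hN : N.Normal] (H : Subgroup G) : AddSubgroup (L.Sh N) where
  carrier := {x | x ∈ part S (L.Sh N) ∧ ∀ h ∈ H, L.cj' N h x = x}
  add_mem' := by
    intro x y hx hy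
    exact ⟨add_mem hx.1 hy.1, fun h hh => by rw [map_add, hx.2 h hh, hy.2 h hh]⟩
  zero_mem' := ⟨zero_mem _, fun h _ => map_zero _⟩
  neg_mem' := by
    intro x hx
    exact ⟨neg_mem hx.1, fun h hh => by rw [map_neg, hx.2 h hh]⟩

theorem fx_sup (N : Subgroup G) [hN : N.Normal] (H K : Subgroup G) :
    fx L S N (H ⊔ K) = fx L S N H ⊓ fx L S N K := by
  apply le_antisymm
  · exact le_inf (fun x hx => ⟨hx.1, fun h hh => hx.2 h (Subgroup.mem_sup_left hh)⟩)
      (fun x hx => ⟨hx.1, fun h hh => hx.2 h (Subgroup.mem_sup_right hh)⟩)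
  · intro x hx
    let T : Subgroup G :=
      { carrier := {g | L.cj' N g x = x}
        mul_mem' := by
          intro g h hg hh
          change L.cj' N (g * h) x = x
          rw [cj'_mul, hh, hg]
        one_mem' := cj'_one L N _
        inv_mem' := by
          intro g hg
          change L.cj' N g⁻¹ x = x
          have h2 := cj'_mul L N g⁻¹ g x
          rw [inv_mul_cancel, cj'_one, hg] at h2
          exact h2.symm }
    have h1 : H ⊔ K ≤ T := sup_le (fun h hh => hx.1.2 h hh) (fun h hh => hx.2.2 h hh)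
    exact ⟨hx.1.1, fun h hh => h1 hh⟩

theorem fx_anti (N : Subgroup G) [hN : N.Normal] {H K : Subgroup G} (h : H ≤ K) :
    fx L S N K ≤ fx L S N H := fun _ hx => ⟨hx.1, fun g hg => hx.2 g (h hg)⟩

theorem ord_eq {N H : Subgroup G} (h : N ≤ H) [hN : N.Normal] [hf : N.FiniteIndex]
    (hop : IsOpen (N : Set G)) (hS : SNum S N.index) : ord L S H = Nat.card (fx L S N H) := by
  classical
  haveI : Finite (H ⧸ N.subgroupOf H) := Subgroup.finite_quotient_of_finiteIndex
  haveI : Fintype (H ⧸ N.subgroupOf H) := Fintype.ofFinite _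
  have hS' : SNum S (N.subgroupOf H).index := hS.dvd (Subgroup.relIndex_dvd_index_of_normal _ _)
  let f : part S (L.Sh H) →+ L.Sh N := (L.res' h).comp (part S (L.Sh H)).subtype
  have hf : Function.Injective f := by
    rw [injective_iff_map_eq_zero]
    rintro ⟨x, hx⟩ h0
    apply Subtype.ext
    exact part_zero hx hS' (res_killed L h x h0)
  have hr : f.range = fx L S N H := by
    ext y
    constructor
    · rintro ⟨⟨x, hx⟩, rfl⟩
      have h6 : L.res' h x ∈ part S (L.Sh N) :=
        part_map (X := L.Sh H) (Y := L.Sh N) (L.res' h) hx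
      exact ⟨h6, fun g hg => cj_res L h g hg x⟩
    · rintro ⟨hy, hfix⟩
      obtain ⟨u, hu⟩ := part_div hy hS'
      have hz : u • u • L.co' h hop y ∈ part S (L.Sh H) :=
        zsmul_mem (zsmul_mem (part_map (X := L.Sh N) (Y := L.Sh H) (L.co' h hop) hy) u) u
      refine ⟨⟨u • u • L.co' h hop y, hz⟩, ?_⟩
      change L.res' h (u • u • L.co' h hop y) = y
      have h1 : ∑ q : H ⧸ N.subgroupOf H, L.cj' N ((rp q : H) : G) y =
          (N.subgroupOf H).index • y := by
        rw [Finset.sum_congr rfl (fun (q : H ⧸ N.subgroupOf H) _ => hfix _ (rp q : H).2),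
          Finset.sum_const, Finset.card_univ, Subgroup.index, Nat.card_eq_fintype_card]
      have h2 : L.res' h (L.co' h hop y) = (N.subgroupOf H).index • (N.subgroupOf H).index • y := by
        rw [res_co L h hop y, h1]
      have h3 : L.res' h (u • u • L.co' h hop y) = u • u • L.res' h (L.co' h hop y) := by
        rw [map_zsmul (L.res' h), map_zsmul (L.res' h)]
      rw [h3, h2]
      have h4 : u • u • (N.subgroupOf H).index • (N.subgroupOf H).index • y =
          u • (N.subgroupOf H).index • (u • (N.subgroupOf H).index • y) := by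
        congr 1
        rw [← natCast_zsmul ((N.subgroupOf H).index • y) (N.subgroupOf H).index,
          ← natCast_zsmul (u • (N.subgroupOf H).index • y) (N.subgroupOf H).index,
          ← mul_smul, ← mul_smul, mul_comm]
      rw [h4, hu, hu]
  have h5 : Nat.card (part S (L.Sh H)) = Nat.card f.range :=
    Nat.card_congr (AddMonoidHom.ofInjective hf).toEquiv
  rw [hr] at h5
  exact h5

theorem ord_super {H K : Subgroup G} (N : Subgroup G) [hN : N.Normal] [hf : N.FiniteIndex]
    (hop : IsOpen (N : Set G)) (hS : SNum S N.index) (hH : N ≤ H) (hK : N ≤ K) :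
    ord L S H * ord L S K ∣ ord L S (H ⊓ K) * ord L S (H ⊔ K) := by
  rw [ord_eq L S hH hop hS, ord_eq L S hK hop hS, ord_eq L S (le_inf hH hK) hop hS,
    ord_eq L S (hH.trans le_sup_left) hop hS, fx_sup]
  exact card_dvd (fx_anti L S N inf_le_left) (fx_anti L S N inf_le_right)

theorem ord_anti {H K : Subgroup G} (N : Subgroup G) [hN : N.Normal] [hf : N.FiniteIndex]
    (hop : IsOpen (N : Set G)) (hS : SNum S N.index) (hH : N ≤ H) (h : H ≤ K) :
    ord L S K ∣ ord L S H := by
  rw [ord_eq L S hH hop hS, ord_eq L S (hH.trans h) hop hS]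
  exact AddSubgroup.card_dvd_of_le (fx_anti L S N h)

theorem ord_conj {H K : Subgroup G} (N : Subgroup G) [hN : N.Normal] [hf : N.FiniteIndex]
    (hop : IsOpen (N : Set G)) (hS : SNum S N.index) (hH : N ≤ H) (hK : N ≤ K) (g : G)
    (hg : ∀ σ ∈ K, g⁻¹ * σ * g ∈ H) : ord L S H ∣ ord L S K := by
  rw [ord_eq L S hH hop hS, ord_eq L S hK hop hS]
  have h1 : ∀ x ∈ fx L S N H, L.cj' N g x ∈ fx L S N K := by
    intro x hx
    refine ⟨part_map _ hx.1, fun σ hσ => ?_⟩
    rw [← cj'_mul]
    have h2 : σ * g = g * (g⁻¹ * σ * g) := by group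
    rw [h2, cj'_mul, hx.2 _ (hg σ hσ)]
  let f : fx L S N H →+ fx L S N K :=
    { toFun := fun x => ⟨L.cj' N g x.1, h1 x.1 x.2⟩
      map_zero' := Subtype.ext (map_zero _)
      map_add' := fun x y => Subtype.ext (map_add _ _ _) }
  refine AddSubgroup.card_dvd_of_injective f ?_
  intro x y hxy
  have h3 : L.cj' N g x.1 = L.cj' N g y.1 := congrArg Subtype.val hxy
  have h4 := congrArg (L.cj' N g⁻¹) h3
  rw [← cj'_mul, ← cj'_mul, inv_mul_cancel, cj'_one, cj'_one] at h4
  exact Subtype.ext h4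

end

end Pool.Agent.U10.Ord
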